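import Pool.Agent.helper19.FR.Spec
import Pool.Agent.helper99.EP.Spec
import Mathlib.Combinatorics.SimpleGraph.Extremal.Turan
set_option autoImplicit false
namespace Pool.Agent.FR
open Finset Real Pool.Agent.AT Pool.Agent.OM Pool.Agent.helper85.FC

/-- Turan's theorem: a third of all pairs (copy of `Pool.Agent.helper85.FD.third`) -/
theorem CNT_third {Q : ℕ → ℕ → Prop} [DecidablePred fun ab : ℕ × ℕ => ab.1 ≠ ab.2 ∧ Q ab.1 ab.2]
    (hQ : ∀ a b, Q a b → Q b a) (S : Finset ℕ)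
    (h5 : ∀ a : Fin 4 → ℕ, Function.Injective a → (∀ j, a j ∈ S) →
      ∃ i j, i ≠ j ∧ Q (a i) (a j)) :
    (S.card : ℝ) ^ 2 / 3 - S.card ≤
      ((S ×ˢ S).filter (fun ab => ab.1 ≠ ab.2 ∧ Q ab.1 ab.2)).card := by
  classical
  let G : SimpleGraph S :=
    { Adj := fun a b => a ≠ b ∧ ¬ Q a b
      symm := ⟨fun a b hab => ⟨hab.1.symm, fun h => hab.2 (hQ _ _ h)⟩⟩
      loopless := ⟨fun a h => h.1 rfl⟩ }
  have hfree : G.CliqueFree (3 + 1) := by
    intro s hs
    obtain ⟨f⟩ : Nonempty (Fin 4 ≃ s) := by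
      have : Fintype.card s = 4 := by rw [Fintype.card_coe]; exact hs.card_eq
      exact ⟨(Fintype.equivFinOfCardEq this).symm⟩
    obtain ⟨i, j, hij, hg⟩ := h5 (fun i => ((f i : S) : ℕ))
      (fun i j hij => f.injective (Subtype.ext (Subtype.ext hij))) (fun i => (f i : S).2)
    have hne : (f i : S) ≠ (f j : S) := fun h => hij (f.injective (Subtype.ext h))
    exact (hs.isClique (f i).2 (f j).2 hne).2 hg
  have h1 : G.edgeFinset.card ≤ #(SimpleGraph.turanGraph S.card 3).edgeFinset := by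
    have h1 := hfree.card_edgeFinset_le
    simp only [Fintype.card_coe] at h1
    rw [SimpleGraph.card_edgeFinset_turanGraph]
    exact h1
  have h2 := SimpleGraph.two_mul_card_edgeFinset (G := G)
  have h3 := SimpleGraph.mul_card_edgeFinset_turanGraph_le (n := S.card) (r := 3)
  obtain ⟨good, hgood⟩ : ∃ good, good = (S ×ˢ S).filter (fun ab => ab.1 ≠ ab.2 ∧ Q ab.1 ab.2) :=
    ⟨_, rfl⟩
  obtain ⟨bad, hbad⟩ : ∃ bad, bad = (S ×ˢ S).filter (fun ab => ab.1 ≠ ab.2 ∧ ¬ Q ab.1 ab.2) :=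
    ⟨_, rfl⟩
  rw [← hgood]
  have e2 : bad.card = #(univ.filter fun (x : S × S) => G.Adj x.1 x.2) := by
    symm
    refine card_bij (fun x _ => ((x.1 : ℕ), (x.2 : ℕ))) ?_ ?_ ?_
    · rintro ⟨x, y⟩ hxy
      rw [mem_filter] at hxy
      rw [hbad, mem_filter, mem_product]
      exact ⟨⟨x.2, y.2⟩, fun h => hxy.2.1 (Subtype.ext h), hxy.2.2⟩
    · rintro ⟨x, y⟩ _ ⟨x', y'⟩ _ h
      have h4 := (Prod.mk.inj h)
      exact Prod.ext (Subtype.ext h4.1) (Subtype.ext h4.2)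
    · rintro ⟨x, y⟩ hxy
      rw [hbad, mem_filter, mem_product] at hxy
      refine ⟨(⟨x, hxy.1.1⟩, ⟨y, hxy.1.2⟩), ?_, rfl⟩
      rw [mem_filter]
      exact ⟨mem_univ _, fun h => hxy.2.1 (congrArg Subtype.val h), hxy.2.2⟩
  have e3 : good.card + bad.card = #((S ×ˢ S).filter (fun ab => ab.1 ≠ ab.2)) := by
    have h7 : good ∪ bad = (S ×ˢ S).filter (fun ab => ab.1 ≠ ab.2) := by
      rw [hgood, hbad]
      ext ab
      simp only [mem_union, mem_filter]
      tauto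
    have h8 : Disjoint good bad := by
      rw [hgood, hbad, disjoint_left]
      intro ab h9 h10
      rw [mem_filter] at h9 h10
      exact h10.2.2 h9.2.2
    rw [← h7, card_union_of_disjoint h8]
  have e4 : #((S ×ˢ S).filter (fun ab => ab.1 ≠ ab.2)) + S.card = S.card ^ 2 := by
    have h5 := card_filter_add_card_filter_not (s := S ×ˢ S) (fun ab => ab.1 = ab.2)
    have h6 : #((S ×ˢ S).filter (fun ab => ab.1 = ab.2)) = S.card := by
      have h7 : (S ×ˢ S).filter (fun ab => ab.1 = ab.2) = S.diag := by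
        ext ab
        simp only [mem_filter, mem_product, mem_diag]
        constructor
        · rintro ⟨⟨h8, -⟩, h9⟩
          exact ⟨h8, h9⟩
        · rintro ⟨h8, h9⟩
          exact ⟨⟨h8, h9 ▸ h8⟩, h9⟩
      rw [h7, diag_card]
    rw [h6, card_product] at h5
    rw [sq, ← h5, add_comm]
  have h4 : 3 * bad.card ≤ 2 * S.card ^ 2 := by
    have h5 : bad.card = 2 * G.edgeFinset.card := by rw [e2, h2]
    omega
  have h5 : 3 * good.card + 3 * S.card + 2 * S.card ^ 2 ≥ 3 * S.card ^ 2 := by omega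
  have h6 : (3 * good.card + 3 * S.card + 2 * S.card ^ 2 : ℝ) ≥ 3 * (S.card : ℝ) ^ 2 := by exact_mod_cast h5
  linarith

theorem CNT_rp (s t : ℕ) : s * (rp s t).2 = t * (rp s t).1 := by
  unfold rp
  dsimp only
  rw [← Nat.mul_div_assoc s (Nat.gcd_dvd_right s t), ← Nat.mul_div_assoc t (Nat.gcd_dvd_left s t),
    mul_comm]

theorem CNT_inj {s t t' : ℕ} (hs : 0 < s) (h : rp s t = rp s t') : t = t' := by
  have h1 := CNT_rp s t
  have h2 := CNT_rp s t'
  rw [← h, h1] at h2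
  have h3 : 0 < (rp s t).1 := Nat.div_pos (Nat.gcd_le_left t hs) (Nat.gcd_pos_of_pos_left t hs)
  exact Nat.eq_of_mul_eq_mul_right h3 h2

theorem CNT_swap (s t : ℕ) : rp t s = ((rp s t).2, (rp s t).1) := by
  unfold rp
  rw [Nat.gcd_comm]

theorem CNT (hGLB : GLB_stmt) (hGQS : Pool.Agent.EP.GQS_stmt) : CNT_stmt := by
  classical
  intro ε hε
  obtain ⟨E, hE⟩ := hGLB ε hε
  refine ⟨2 * #E + 1, ?_⟩
  intro F hF
  obtain ⟨Q, hQ⟩ : ∃ Q : ℕ → ℕ → Prop, Q = fun s t => GQ ε s t ∨ rp s t ∈ E ∨ rp t s ∈ E := ⟨_, rfl⟩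
  have hsym : ∀ a b, Q a b → Q b a := by
    intro a b h
    rw [hQ] at h ⊢
    rcases h with h | h | h
    · exact Or.inl (hGQS.1 ε a b h)
    · exact Or.inr (Or.inr h)
    · exact Or.inr (Or.inl h)
  have h4 : ∀ a : Fin 4 → ℕ, Function.Injective a → (∀ j, a j ∈ F) → ∃ i j, i ≠ j ∧ Q (a i) (a j) := by
    intro a ha haF
    by_contra hc
    push Not at hc
    obtain ⟨i, j, hij, hg⟩ := hE a (fun i => ⟨hF _ (haF i), Set.mem_univ _⟩) ha (by
      intro i j hij h
      apply hc i j hij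
      rw [hQ]
      exact Or.inr (Or.inl h))
    apply hc i j hij
    rw [hQ]
    exact Or.inl hg
  have h5 := CNT_third hsym F h4
  have hsub : (F ×ˢ F).filter (fun ab => ab.1 ≠ ab.2 ∧ Q ab.1 ab.2) ⊆
      ((F ×ˢ F).filter (fun p => GQ ε p.1 p.2)) ∪ (((F ×ˢ F).filter (fun p => rp p.1 p.2 ∈ E)) ∪
        ((F ×ˢ F).filter (fun p => rp p.2 p.1 ∈ E))) := by
    intro p hp
    rw [mem_filter, hQ] at hp
    rw [mem_union, mem_union, mem_filter, mem_filter, mem_filter]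
    rcases hp.2.2 with h | h | h
    · exact Or.inl ⟨hp.1, h⟩
    · exact Or.inr (Or.inl ⟨hp.1, h⟩)
    · exact Or.inr (Or.inr ⟨hp.1, h⟩)
  have hc1 : #((F ×ˢ F).filter (fun p => rp p.1 p.2 ∈ E)) ≤ #E * #F := by
    rw [← card_product]
    refine card_le_card_of_injOn (fun p => (rp p.1 p.2, p.1)) ?_ ?_
    · intro p hp
      rw [mem_coe, mem_filter, mem_product] at hp
      rw [mem_coe, mem_product]
      exact ⟨hp.2, hp.1.1⟩
    · intro p hp p' hp' h
      rw [mem_coe, mem_filter, mem_product] at hp hp'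
      dsimp only at h
      rw [Prod.mk.injEq] at h
      have h6 : rp p.1 p.2 = rp p.1 p'.2 := by rw [h.1, h.2]
      exact Prod.ext h.2 (CNT_inj (hF _ hp.1.1) h6)
  have hc2 : #((F ×ˢ F).filter (fun p => rp p.2 p.1 ∈ E)) ≤ #E * #F := by
    rw [← card_product]
    refine card_le_card_of_injOn (fun p => (rp p.2 p.1, p.1)) ?_ ?_
    · intro p hp
      rw [mem_coe, mem_filter, mem_product] at hp
      rw [mem_coe, mem_product]
      exact ⟨hp.2, hp.1.1⟩
    · intro p hp p' hp' h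
      rw [mem_coe, mem_filter, mem_product] at hp hp'
      dsimp only at h
      rw [Prod.mk.injEq, CNT_swap p.1 p.2, CNT_swap p'.1 p'.2, Prod.mk.injEq] at h
      have h6 : rp p.1 p.2 = rp p.1 p'.2 := by
        rw [Prod.ext_iff, h.2]
        rw [h.2] at h
        exact ⟨h.1.2, h.1.1⟩
      exact Prod.ext h.2 (CNT_inj (hF _ hp.1.1) h6)
  have h7 := (card_le_card hsub).trans ((card_union_le _ _).trans
    (Nat.add_le_add_left (card_union_le _ _) _))
  have h8 : (#((F ×ˢ F).filter (fun ab => ab.1 ≠ ab.2 ∧ Q ab.1 ab.2)) : ℝ) ≤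
      #((F ×ˢ F).filter (fun p => GQ ε p.1 p.2)) + (#E * #F + #E * #F) := by
    have h9 : #((F ×ˢ F).filter (fun ab => ab.1 ≠ ab.2 ∧ Q ab.1 ab.2)) ≤
      #((F ×ˢ F).filter (fun p => GQ ε p.1 p.2)) + (#E * #F + #E * #F) := by omega
    exact_mod_cast h9
  linarith

end Pool.Agent.FR
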