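import Pool.Agent.helper93.FR.Spec

/-!
Row Cls of the project FR (architect helper93): the rings with given discrete data.
-/

namespace Pool.Agent.helper20.FR

open Matrix BigOperators Pool.Agent.helper93.FR

theorem entry_le_total {r : ℕ} (N : Fin r → Fin r → Fin r → ℕ) (i j k : Fin r) :
    N i j k ≤ total N := by
  unfold total
  calc N i j k ≤ ∑ k, N i j k :=
        Finset.single_le_sum (f := fun k => N i j k) (fun _ _ => Nat.zero_le _) (Finset.mem_univ k)
    _ ≤ ∑ j, ∑ k, N i j k :=
        Finset.single_le_sum (f := fun j => ∑ k, N i j k) (fun _ _ => Nat.zero_le _)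
          (Finset.mem_univ j)
    _ ≤ _ :=
        Finset.single_le_sum (f := fun i => ∑ j, ∑ k, N i j k) (fun _ _ => Nat.zero_le _)
          (Finset.mem_univ i)

theorem deg_mul {P : Type} {n a b : ℕ} (A B : Matrix (Fin n) (Fin n) (MvPolynomial P ℂ)) (x : P)
    (hA : ∀ p q, (A p q).degreeOf x ≤ a) (hB : ∀ p q, (B p q).degreeOf x ≤ b) (p q : Fin n) :
    ((A * B) p q).degreeOf x ≤ a + b := by
  rw [Matrix.mul_apply]
  refine (MvPolynomial.degreeOf_sum_le x Finset.univ _).trans ?_
  refine Finset.sup_le fun j _ => ?_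
  exact (MvPolynomial.degreeOf_mul_le _ _ _).trans (Nat.add_le_add (hA _ _) (hB _ _))

theorem Cls_main (hKn : Kn_stmt) (hZP : ZP_stmt) : Cls_stmt := by
  classical
  intro r k M o st γ ℓ τ n a κ β α ref T hR hsq
  have hfin : (Cls r k M o st γ ℓ τ n a κ β α ref T).Finite := by
    refine Set.Finite.subset (Set.finite_Icc (0 : Fin r → Fin r → Fin r → ℕ)
      (fun _ _ _ => M)) ?_
    intro N hN
    refine ⟨fun i j k => Nat.zero_le _, fun i j k => ?_⟩
    exact (entry_le_total N i j k).trans hN.2.1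
  refine ⟨hfin, ?_⟩
  by_cases hemp : (Cls r k M o st γ ℓ τ n a κ β α ref T) = ∅
  · rw [hemp, Set.ncard_empty]
    exact Nat.zero_le _
  obtain ⟨N0, hN0⟩ := Set.nonempty_iff_ne_empty.mpr hemp
  obtain ⟨hF0, hM0, hℓ0, X0, D0, hFl0, hAd0, hDec0⟩ := hN0
  let P : Type := {z // z ∈ P1 a κ T} ⊕ ({z // z ∈ P2 κ ref T} ⊕
    {z // z ∈ ((Finset.univ : Finset (Fin n × Fin n)).filter fun z => a z.1 = a z.2)})
  let XP : Fin r → Matrix (Fin n) (Fin n) (MvPolynomial P ℂ) := fun i p q =>
    if h : (i, p, q) ∈ P1 a κ T then MvPolynomial.X (Sum.inl ⟨(i, p, q), h⟩)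
    else if κ p = κ q then
      (if h : (i, ref p, ref q) ∈ P2 κ ref T then
        MvPolynomial.X (Sum.inr (Sum.inl ⟨(i, ref p, ref q), h⟩))
      else MvPolynomial.C (X0 i (ref p) (ref q)))
    else 0
  let DP : Matrix (Fin n) (Fin n) (MvPolynomial P ℂ) := fun p q =>
    if h : (p, q) ∈ ((Finset.univ : Finset (Fin n × Fin n)).filter fun z => a z.1 = a z.2) then
      MvPolynomial.X (Sum.inr (Sum.inr ⟨(p, q), h⟩)) else 0
  have hdX : ∀ (y x : P), (MvPolynomial.X y : MvPolynomial P ℂ).degreeOf x ≤ 1 := by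
    intro y x
    rw [MvPolynomial.degreeOf_X]
    split_ifs <;> simp
  have hXPd : ∀ i (x : P) p q, (XP i p q).degreeOf x ≤ 1 := by
    intro i x p q
    simp only [XP]
    split_ifs
    · exact hdX _ _
    · exact hdX _ _
    · rw [MvPolynomial.degreeOf_C]; exact Nat.zero_le _
    · rw [MvPolynomial.degreeOf_zero]; exact Nat.zero_le _
  have hDPd : ∀ (x : P) p q, (DP p q).degreeOf x ≤ 1 := by
    intro x p q
    simp only [DP]
    split_ifs
    · exact hdX _ _
    · rw [MvPolynomial.degreeOf_zero]; exact Nat.zero_le _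
  -- evaluation at a member
  let uu : (Fin r → Matrix (Fin n) (Fin n) ℂ) → Matrix (Fin n) (Fin n) ℂ → P → ℂ :=
    fun X D => Sum.elim (fun z => X z.1.1 z.1.2.1 z.1.2.2)
      (Sum.elim (fun z => X z.1.1 z.1.2.1 z.1.2.2) (fun z => D z.1.1 z.1.2))
  have hXev : ∀ N ∈ Cls r k M o st γ ℓ τ n a κ β α ref T,
      ∀ X D, Flat N o st n a X D → Adapt τ γ n a κ β α X → DecodeOK κ ref T X →
      ∀ i p q, MvPolynomial.eval (uu X D) (XP i p q) = X i p q := by
    intro N hN X D hFl hAd hDec i p q
    simp only [XP]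
    split_ifs with h1 h2 h3
    · simp [uu]
    · have hT : (κ q, i) ∉ T := by
        intro hT
        apply h1
        simp only [P1, Finset.mem_filter, Finset.mem_univ, true_and]
        exact ⟨hT, hAd.κa p q h2⟩
      rw [MvPolynomial.eval_X, hDec i p q hT, if_pos h2]
      simp [uu]
    · have hT : (κ q, i) ∉ T := by
        intro hT
        apply h1
        simp only [P1, Finset.mem_filter, Finset.mem_univ, true_and]
        exact ⟨hT, hAd.κa p q h2⟩
      rw [MvPolynomial.eval_C, hDec i p q hT, if_pos h2]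
      refine hKn r k N0 N o st hF0 hN.1 n γ ℓ τ hℓ0 hN.2.2.1 a κ β α ref T X0 X D0 D hFl0 hAd0
        hDec0 hFl hAd hDec hR i q ?_ p h2
      intro q' hq' hT'
      apply h3
      have hβp : β p = β q := hAd.κβ p q h2
      obtain ⟨q'', hq1, hq2⟩ := hAd.surj q' (α q) (by rw [hq']; exact hAd.αlt q)
      obtain ⟨p'', hp1, hp2⟩ := hAd.surj q' (α p) (by
        rw [hq', ← hβp]; exact hAd.αlt p)
      simp only [P2, Finset.mem_filter, Finset.mem_univ, true_and]
      refine ⟨p'', q'', by rw [hp1, hq1], by rw [hq1]; exact hT', ?_, ?_⟩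
      · have e1 : β p'' = β p := by
          rw [hAd.κβ p'' q' hp1, hq', hβp]
        exact hAd.inj _ _ (hR.rκ _ _ e1) (by rw [hR.rα, hR.rα, hp2])
      · have e1 : β q'' = β q := by
          rw [hAd.κβ q'' q' hq1, hq']
        exact hAd.inj _ _ (hR.rκ _ _ e1) (by rw [hR.rα, hR.rα, hq2])
    · rw [map_zero]
      by_cases hT : (κ q, i) ∈ T
      · have ha : a p ≠ a q := by
          intro ha
          apply h1
          simp only [P1, Finset.mem_filter, Finset.mem_univ, true_and]
          exact ⟨hT, ha⟩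
        exact (hFl.blkX i p q ha).symm
      · rw [hDec i p q hT, if_neg h2]
  have hDev : ∀ N, ∀ X D, Flat N o st n a X D →
      ∀ p q, MvPolynomial.eval (uu X D) (DP p q) = D p q := by
    intro N X D hFl p q
    simp only [DP]
    split_ifs with h1
    · simp [uu]
    · rw [map_zero]
      have ha : a p ≠ a q := by
        intro ha
        apply h1
        simp only [Finset.mem_filter, Finset.mem_univ, true_and]
        exact ha
      exact (hFl.blkD p q ha).symm
  let ff : Fin r × Fin r × Fin r × Fin (M + 1) → MvPolynomial P ℂ := fun z =>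
    (XP z.1 * XP z.2.1 * XP (st z.2.2.1) * DP).trace + MvPolynomial.C (-(z.2.2.2.1 : ℂ))
  have hffd : ∀ z (x : P), (ff z).degreeOf x ≤ 4 := by
    intro z x
    simp only [ff]
    refine (MvPolynomial.degreeOf_add_le _ _ _).trans ?_
    refine max_le ?_ (by rw [MvPolynomial.degreeOf_C]; exact Nat.zero_le _)
    rw [Matrix.trace]
    refine (MvPolynomial.degreeOf_sum_le x Finset.univ _).trans ?_
    refine Finset.sup_le fun p _ => ?_
    rw [Matrix.diag_apply]
    exact deg_mul _ _ x (fun p q => deg_mul _ _ x (fun p q => deg_mul _ _ x (hXPd _ x)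
      (hXPd _ x) p q) (hXPd _ x) p q) (hDPd x) p p
  let A : Type := {N // N ∈ Cls r k M o st γ ℓ τ n a κ β α ref T}
  haveI : Fintype A := hfin.fintype
  choose XX DD hFl hAd hDec using fun x : A => x.2.2.2.2
  have hffev : ∀ (x : A) z, MvPolynomial.eval (uu (XX x) (DD x)) (ff z) =
      (x.1 z.1 z.2.1 z.2.2.1 : ℂ) - (z.2.2.2.1 : ℂ) := by
    intro x z
    simp only [ff]
    rw [map_add, MvPolynomial.eval_C, (hFl x).tr z.1 z.2.1 z.2.2.1, sub_eq_add_neg]
    congr 1
    simp only [Matrix.trace, Matrix.diag_apply, Matrix.mul_apply, map_sum, map_mul]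
    simp only [hXev x.1 x.2 (XX x) (DD x) (hFl x) (hAd x) (hDec x),
      hDev x.1 (XX x) (DD x) (hFl x)]
  have hinj : Function.Injective fun x : A =>
      {j | MvPolynomial.eval (uu (XX x) (DD x)) (ff j) = 0} := by
    intro x y hxy
    simp only at hxy
    apply Subtype.ext
    funext i j l
    have hle : x.1 i j l < M + 1 :=
      Nat.lt_succ_of_le ((entry_le_total x.1 i j l).trans x.2.2.1)
    have h1 : (i, j, l, (⟨x.1 i j l, hle⟩ : Fin (M + 1))) ∈
        {j | MvPolynomial.eval (uu (XX x) (DD x)) (ff j) = 0} := by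
      simp only [Set.mem_ofPred_eq]
      rw [hffev x]
      simp
    rw [hxy] at h1
    simp only [Set.mem_ofPred_eq] at h1
    rw [hffev y] at h1
    have h2 : (y.1 i j l : ℂ) = (x.1 i j l : ℂ) := sub_eq_zero.mp h1
    exact_mod_cast h2.symm
  have key := hZP P (Fin r × Fin r × Fin r × Fin (M + 1)) A ff 4 hffd
    (fun x => uu (XX x) (DD x)) hinj
  have hcardA : Fintype.card A = (Cls r k M o st γ ℓ τ n a κ β α ref T).ncard := by
    rw [← Nat.card_eq_fintype_card]
    rfl
  have hcardJ : Fintype.card (Fin r × Fin r × Fin r × Fin (M + 1)) = r ^ 3 * (M + 1) := by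
    simp only [Fintype.card_prod, Fintype.card_fin]
    ring
  have hcardP : Fintype.card P ≤ (P1 a κ T).card + (P2 κ ref T).card + r := by
    simp only [P, Fintype.card_sum, Fintype.card_coe]
    omega
  rw [hcardA, hcardJ] at key
  refine key.trans ?_
  exact Nat.pow_le_pow_right (Nat.succ_pos _) hcardP

end Pool.Agent.helper20.FR
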